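import Pool.Agent.Helper15.EP.St

set_option autoImplicit false

/-!
Project EP (MP_16cbc0_nt), module APE.
-/

open Polynomial Pool.Agent.Helper15.FC Pool.Agent.Helper15.EP

namespace Pool.Agent.Helper45.EP

private theorem mem_Lc' {F : Type} [Field F] [Fintype F] {r x : F[X]} :
    x ∈ Lc r ↔ x.degree < (r.natDegree : WithBot ℕ) ∧ IsCoprime x r := by
  classical
  unfold Lc
  rw [Finset.mem_filter, mem_Lw]

private theorem phi_pos' {F : Type} [Field F] [Fintype F] (hPHI : StPHI) {r : F[X]}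
    (hr : r.Monic) : 0 < phi r := (hPHI F r hr).1

open scoped Classical in
/-- the number of the `x` in `Lc m` with `B x ≡ s` modulo `m` -/
private noncomputable def Nc {F : Type} [Field F] [Fintype F] (m B s : F[X]) : ℕ :=
  ((Lc m).filter (fun x => m ∣ B * x - s)).card

private theorem Nc_le {F : Type} [Field F] [Fintype F] {m : F[X]} (hm : m.Monic) (B s u : F[X])
    (hu : IsCoprime u m) : Nc m B s ≤ Nc m B (u * s) := by
  classical
  unfold Nc
  have hdiv : ∀ f : F[X], m ∣ f - f %ₘ m := by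
    intro f
    refine ⟨f /ₘ m, ?_⟩
    have := Polynomial.modByMonic_add_div f m
    linear_combination -this
  refine Finset.card_le_card_of_injOn (fun x => (u * x) %ₘ m) ?_ ?_
  · intro x hx
    rw [Finset.mem_coe, Finset.mem_filter] at hx
    obtain ⟨hx1, hx2⟩ := hx
    have hx3 := (mem_Lc'.1 hx1).2
    rw [Finset.mem_coe, Finset.mem_filter]
    obtain ⟨c, hc⟩ := hdiv (u * x)
    refine ⟨mem_Lc'.2 ⟨?_, ?_⟩, ?_⟩
    · have := Polynomial.degree_modByMonic_lt (u * x) hm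
      rwa [Polynomial.degree_eq_natDegree hm.ne_zero] at this
    · obtain ⟨a, b, hab⟩ := IsCoprime.mul_left hu hx3
      refine ⟨a, b + a * c, ?_⟩
      linear_combination hab - a * hc
    · obtain ⟨d, hd⟩ := hx2
      refine ⟨u * d - B * c, ?_⟩
      linear_combination u * hd - B * hc
  · intro x hx y hy hxy
    rw [Finset.mem_coe, Finset.mem_filter] at hx hy
    have hx1 := (mem_Lc'.1 hx.1).1
    have hy1 := (mem_Lc'.1 hy.1).1
    have hxy' : (u * x) %ₘ m = (u * y) %ₘ m := hxy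
    obtain ⟨c, hc⟩ := hdiv (u * x)
    obtain ⟨d, hd⟩ := hdiv (u * y)
    have h1 : m ∣ (x - y) * u := by
      refine ⟨c - d, ?_⟩
      linear_combination hc - hd + hxy'
    have h2 : m ∣ x - y := hu.symm.dvd_of_dvd_mul_right h1
    have h3 : (x - y).degree < m.degree := by
      rw [Polynomial.degree_eq_natDegree hm.ne_zero]
      exact lt_of_le_of_lt (Polynomial.degree_sub_le _ _) (max_lt hx1 hy1)
    exact sub_eq_zero.1 (Polynomial.eq_zero_of_dvd_of_degree_lt h2 h3)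

private theorem Nc_congr {F : Type} [Field F] [Fintype F] {m B s s' : F[X]} (h : m ∣ s - s') :
    Nc m B s = Nc m B s' := by
  classical
  unfold Nc
  congr 1
  refine Finset.filter_congr fun x _ => ?_
  obtain ⟨c, hc⟩ := h
  constructor
  · rintro ⟨d, hd⟩
    exact ⟨d + c, by linear_combination hd + hc⟩
  · rintro ⟨d, hd⟩
    exact ⟨d - c, by linear_combination hd - hc⟩

private theorem Nc_eq {F : Type} [Field F] [Fintype F] {m : F[X]} (hm : m.Monic) (B s u : F[X])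
    (hu : IsCoprime u m) : Nc m B (u * s) = Nc m B s := by
  refine le_antisymm ?_ (Nc_le hm B s u hu)
  obtain ⟨a, b, hab⟩ := hu
  have hau : IsCoprime a m := ⟨u, b, by linear_combination hab⟩
  refine (Nc_le hm B (u * s) a hau).trans (le_of_eq (Nc_congr ⟨-(b * s), ?_⟩))
  linear_combination s * hab

private theorem Nc_bound {F : Type} [Field F] [Fintype F] (hUCT : StUCT) {m : F[X]}
    (hm : m.Monic) (B t u : F[X]) (ht : t ≠ 0) (hu : IsCoprime u m) :
    (Nc m B (u * t) : ℝ) ≤ qr F ^ t.natDegree := by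
  classical
  unfold Nc
  refine hUCT F m B t u hm ht hu _ fun x hx => ?_
  rw [Finset.mem_filter] at hx
  exact ⟨mem_Lw.2 (mem_Lc'.1 hx.1).1, hx.2⟩

open scoped Classical in
/-- the weight -/
private noncomputable def ww {F : Type} [Field F] [Fintype F] (m t f : F[X]) : ℂ :=
  (if m ∣ f - t then 1 else 0) -
    (1 / (phi m : ℂ)) * ∑ u ∈ Lc m, (if m ∣ f - u * t then 1 else 0)

private theorem ww_per {F : Type} [Field F] [Fintype F] {m t f g : F[X]} (h : m ∣ f - g) :
    ww m t f = ww m t g := by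
  classical
  obtain ⟨c, hc⟩ := h
  have key : ∀ s : F[X], (m ∣ f - s ↔ m ∣ g - s) := by
    intro s
    constructor
    · rintro ⟨d, hd⟩
      exact ⟨d - c, by linear_combination hd - hc⟩
    · rintro ⟨d, hd⟩
      exact ⟨d + c, by linear_combination hd + hc⟩
  unfold ww
  simp only [key]

private theorem ww_sum {F : Type} [Field F] [Fintype F] (hPHI : StPHI) {m : F[X]}
    (hm : m.Monic) (t B : F[X]) : ∑ x ∈ Lc m, ww m t (B * x) = 0 := by
  classical
  have hφ : (phi m : ℂ) ≠ 0 := Nat.cast_ne_zero.2 (phi_pos' hPHI hm).ne'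
  have h1 : ∀ s : F[X], ∑ x ∈ Lc m, (if m ∣ B * x - s then (1 : ℂ) else 0) = (Nc m B s : ℂ) := by
    intro s
    unfold Nc
    rw [Finset.sum_boole]
  unfold ww
  rw [Finset.sum_sub_distrib, ← Finset.mul_sum, Finset.sum_comm, h1 t]
  have h2 : ∑ u ∈ Lc m, ∑ x ∈ Lc m, (if m ∣ B * x - u * t then (1 : ℂ) else 0) =
      (phi m : ℂ) * (Nc m B t : ℂ) := by
    rw [← card_Lc, ← nsmul_eq_mul, ← Finset.sum_const]
    refine Finset.sum_congr rfl fun u hu => ?_
    rw [h1 (u * t), Nc_eq hm B t u (mem_Lc'.1 hu).2]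
  rw [h2]
  field_simp
  ring

private theorem ww_norm {F : Type} [Field F] [Fintype F] (hPHI : StPHI) (hUCT : StUCT)
    {m : F[X]} (hm : m.Monic) (t B : F[X]) (ht : t ≠ 0) :
    ∑ x ∈ Lc m, ‖ww m t (B * x)‖ ≤ 2 * qr F ^ t.natDegree := by
  classical
  have hφ : (0 : ℝ) < (phi m : ℝ) := Nat.cast_pos.2 (phi_pos' hPHI hm)
  have h1 : ∀ s : F[X], ∑ x ∈ Lc m, (if m ∣ B * x - s then (1 : ℝ) else 0) = (Nc m B s : ℝ) := by
    intro s
    unfold Nc
    rw [Finset.sum_boole]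
  have h0 : ∀ f : F[X], ‖ww m t f‖ ≤ (if m ∣ f - t then (1 : ℝ) else 0) +
      (1 / (phi m : ℝ)) * ∑ u ∈ Lc m, (if m ∣ f - u * t then (1 : ℝ) else 0) := by
    intro f
    unfold ww
    refine (norm_sub_le _ _).trans (add_le_add ?_ ?_)
    · split_ifs <;> simp
    · rw [norm_mul, norm_div, norm_one, Complex.norm_natCast]
      refine mul_le_mul_of_nonneg_left ?_ (by positivity)
      refine (norm_sum_le _ _).trans (Finset.sum_le_sum fun u _ => ?_)
      split_ifs <;> simp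
  calc ∑ x ∈ Lc m, ‖ww m t (B * x)‖
      ≤ ∑ x ∈ Lc m, ((if m ∣ B * x - t then (1 : ℝ) else 0) +
        (1 / (phi m : ℝ)) * ∑ u ∈ Lc m, (if m ∣ B * x - u * t then (1 : ℝ) else 0)) :=
        Finset.sum_le_sum fun x _ => h0 _
    _ = (Nc m B t : ℝ) + (1 / (phi m : ℝ)) * ∑ u ∈ Lc m, (Nc m B (u * t) : ℝ) := by
        rw [Finset.sum_add_distrib, ← Finset.mul_sum, Finset.sum_comm, h1 t]
        simp only [h1]
    _ ≤ qr F ^ t.natDegree + (1 / (phi m : ℝ)) * ∑ _u ∈ Lc m, qr F ^ t.natDegree := by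
        refine add_le_add ?_ (mul_le_mul_of_nonneg_left ?_ (by positivity))
        · have := Nc_bound hUCT hm B t 1 ht isCoprime_one_left
          rwa [one_mul] at this
        · exact Finset.sum_le_sum fun u hu => Nc_bound hUCT hm B t u ht (mem_Lc'.1 hu).2
    _ = 2 * qr F ^ t.natDegree := by
        rw [Finset.sum_const, card_Lc, nsmul_eq_mul]
        field_simp
        ring

private theorem cop_of_unit {F : Type} [Field F] [Fintype F] {m f : F[X]}
    (h : IsUnit (AdjoinRoot.mk m f)) : IsCoprime f m := by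
  obtain ⟨y, hy⟩ := h.exists_right_inv
  obtain ⟨g, rfl⟩ := AdjoinRoot.mk_surjective y
  rw [← map_mul, ← map_one (AdjoinRoot.mk m), AdjoinRoot.mk_eq_mk] at hy
  obtain ⟨c, hc⟩ := hy
  exact ⟨g, -c, by linear_combination hc⟩

private theorem sum_Cp {F : Type} [Field F] [Fintype F] (m : F[X]) (n : ℕ)
    (χ : MulChar (AdjoinRoot m) ℂ) :
    ∑ f ∈ Cp m n, χ (AdjoinRoot.mk m f) = ∑ f ∈ Mn F n, χ (AdjoinRoot.mk m f) := by
  classical
  unfold Cp
  refine Finset.sum_subset (Finset.filter_subset _ _) fun f hf hf' => ?_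
  refine MulChar.map_nonunit χ fun hu => hf' ?_
  exact Finset.mem_filter.2 ⟨hf, cop_of_unit hu⟩

private theorem main_b0 {F : Type} [Field F] [Fintype F] (hUPS : StUPS) (hUCT : StUCT)
    (hORR : StORR) (hPHI : StPHI) {l : ℕ} {m : F[X]} (hm : m.Monic) (t B : F[X]) (ht : t ≠ 0)
    (n : Fin l → ℕ) (K : Fin l → ℝ)
    (hK : ∀ (χ : MulChar (AdjoinRoot m) ℂ) (j : Fin l), χ ≠ 1 →
      ‖∑ f ∈ Mn F (n j), χ (AdjoinRoot.mk m f)‖ ≤ K j) (hK0 : ∀ j, 0 ≤ K j) :
    ‖∑ b ∈ Fintype.piFinset (fun j => Cp m (n j)), ww m t (B * ∏ j, b j)‖ ≤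
      2 * qr F ^ t.natDegree * ∏ j, K j := by
  classical
  have hφ : (0 : ℝ) < (phi m : ℝ) := Nat.cast_pos.2 (phi_pos' hPHI hm)
  have hφC : (phi m : ℂ) ≠ 0 := Nat.cast_ne_zero.2 (phi_pos' hPHI hm).ne'
  obtain ⟨c, hc1, hc2, hc3⟩ := hUPS F m (fun f => ww m t (B * f)) hm (by
    intro f g hfg
    refine ww_per ?_
    rw [← mul_sub]
    exact Dvd.dvd.mul_left hfg B)
  have hc0 : c 1 = 0 := by
    have h : (phi m : ℂ) * c 1 = 0 := by
      rw [hc3]
      exact ww_sum hPHI hm t B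
    exact (mul_eq_zero.1 h).resolve_left hφC
  have hcb : ∀ χ, ‖c χ‖ ≤ 2 * qr F ^ t.natDegree / (phi m : ℝ) := by
    intro χ
    rw [le_div_iff₀ hφ, mul_comm]
    exact (hc2 χ).trans (ww_norm hPHI hUCT hm t B ht)
  have hcard := (hORR F m 1 1 hm isCoprime_one_left isCoprime_one_left).1
  have hKp : 0 ≤ ∏ j, K j := Finset.prod_nonneg fun j _ => hK0 j
  have hq : (0 : ℝ) ≤ qr F ^ t.natDegree := by positivity
  have h1 : ∑ b ∈ Fintype.piFinset (fun j => Cp m (n j)), ww m t (B * ∏ j, b j) =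
      ∑ χ ∈ allF (MulChar (AdjoinRoot m) ℂ), c χ *
        ∏ j, ∑ f ∈ Mn F (n j), χ (AdjoinRoot.mk m f) := by
    have h2 : ∀ b ∈ Fintype.piFinset (fun j => Cp m (n j)), ww m t (B * ∏ j, b j) =
        ∑ χ ∈ allF (MulChar (AdjoinRoot m) ℂ), c χ * ∏ j, χ (AdjoinRoot.mk m (b j)) := by
      intro b hb
      have hb' : IsCoprime (∏ j, b j) m := by
        refine IsCoprime.prod_left fun j _ => ?_
        have := Fintype.mem_piFinset.1 hb j
        unfold Cp at this
        exact (Finset.mem_filter.1 this).2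
      have h3 := hc1 (∏ j, b j) hb'
      refine h3.trans (Finset.sum_congr rfl fun χ _ => ?_)
      rw [map_prod, map_prod]
    rw [Finset.sum_congr rfl h2, Finset.sum_comm]
    refine Finset.sum_congr rfl fun χ _ => ?_
    rw [← Finset.mul_sum]
    congr 1
    rw [← Finset.prod_univ_sum (fun j => Cp m (n j)) (fun _ f => χ (AdjoinRoot.mk m f))]
    refine Finset.prod_congr rfl fun j _ => ?_
    exact sum_Cp m (n j) χ
  rw [h1]
  calc ‖∑ χ ∈ allF (MulChar (AdjoinRoot m) ℂ), c χ *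
        ∏ j, ∑ f ∈ Mn F (n j), χ (AdjoinRoot.mk m f)‖
      ≤ ∑ χ ∈ allF (MulChar (AdjoinRoot m) ℂ), ‖c χ *
        ∏ j, ∑ f ∈ Mn F (n j), χ (AdjoinRoot.mk m f)‖ := norm_sum_le _ _
    _ ≤ ∑ _χ ∈ allF (MulChar (AdjoinRoot m) ℂ),
        2 * qr F ^ t.natDegree / (phi m : ℝ) * ∏ j, K j := by
        refine Finset.sum_le_sum fun χ _ => ?_
        by_cases hχ : χ = 1
        · rw [hχ, hc0, zero_mul, norm_zero]
          positivity
        · rw [norm_mul, norm_prod]
          refine mul_le_mul (hcb χ) ?_ (Finset.prod_nonneg fun j _ => norm_nonneg _)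
            (by positivity)
          exact Finset.prod_le_prod (fun j _ => norm_nonneg _) fun j _ => hK χ j hχ
    _ = 2 * qr F ^ t.natDegree * ∏ j, K j := by
        rw [Finset.sum_const, hcard, nsmul_eq_mul]
        field_simp

private theorem AP_cast {F : Type} [Field F] [Fintype F] {l : ℕ} (y : Fin l → ℕ) (m t : F[X]) :
    haveI : ∀ a : Prop, Decidable a := fun a => Classical.propDecidable a
    (AP y m t : ℂ) = ∑ b ∈ Tup F y, (if m ∣ (∏ j, b j) - t then (1 : ℂ) else 0) := by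
  classical
  unfold AP
  rw [Finset.sum_boole]

private theorem AP_AV {F : Type} [Field F] [Fintype F] {l : ℕ} (y : Fin l → ℕ) (m t : F[X]) :
    (((AP y m t : ℝ) - AV y m t : ℝ) : ℂ) = ∑ b ∈ Tup F y, ww m t (∏ j, b j) := by
  classical
  unfold AV ww
  rw [Finset.sum_sub_distrib, ← Finset.mul_sum, Finset.sum_comm]
  push_cast
  rw [AP_cast]
  congr 2
  refine Finset.sum_congr rfl fun u _ => ?_
  rw [AP_cast]

private theorem sml_sum {F : Type} [Field F] [Fintype F] (hDKR : StDKR) (m : F[X]) (n : ℕ) :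
    ∑ f ∈ Sml m n, ((Real.sqrt (qr F))⁻¹) ^ f.natDegree = kap 1 m n := by
  classical
  unfold Sml kap
  rw [Finset.sum_biUnion]
  · refine Finset.sum_congr rfl fun i _ => Finset.sum_congr rfl fun f hf => ?_
    unfold Sm at hf
    have hf' := mem_Mn.1 (Finset.mem_filter.1 hf).1
    rw [(hDKR F).2.2.1 f hf'.1, hf'.2]
    simp
  · intro i _ j _ hij
    refine Finset.disjoint_left.2 fun f hf hf' => hij ?_
    unfold Sm at hf hf'
    rw [← (mem_Mn.1 (Finset.mem_filter.1 hf).1).2, (mem_Mn.1 (Finset.mem_filter.1 hf').1).2]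

private theorem sml_deg {F : Type} [Field F] [Fintype F] {m f : F[X]} {n : ℕ}
    (hf : f ∈ Sml m n) : f.natDegree ≤ n := by
  classical
  unfold Sml at hf
  rw [Finset.mem_biUnion] at hf
  obtain ⟨i, hi, hf⟩ := hf
  unfold Sm at hf
  rw [(mem_Mn.1 (Finset.mem_filter.1 hf).1).2]
  exact Nat.le_of_lt_succ (Finset.mem_range.1 hi)

/-- **APE** -/
theorem hAPE (hSPT : StSPT) (hUPS : StUPS) (hUCT : StUCT) (hCSB : StCSB) (hKAP : StKAP)
    (hDKR : StDKR) (hORR : StORR) (hPHI : StPHI) : StAPE := by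
  classical
  intro F _ _ l δ hδ
  have hδ' : 0 < δ / (2 * l + 1) := by positivity
  obtain ⟨C1, hC1, hC1b⟩ := hCSB F (δ / (2 * l + 1)) hδ'
  obtain ⟨C2, hC2, hC2b⟩ := hKAP F 1 (δ / (2 * l + 1)) hδ'
  have hC12 : 1 ≤ C1 ^ l * C2 ^ l := one_le_mul_of_one_le_of_one_le (one_le_pow₀ hC1) (one_le_pow₀ hC2)
  refine ⟨2 * (C1 ^ l * C2 ^ l), by linarith, ?_⟩
  intro y m t hm ht
  have hqpos : (0 : ℝ) < qr F := Nat.cast_pos.2 Fintype.card_pos
  have hq1 : (1 : ℝ) ≤ qr F := by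
    have : 1 ≤ Fintype.card F := Fintype.card_pos
    exact_mod_cast this
  have hs : 0 < Real.sqrt (qr F) := Real.sqrt_pos.2 hqpos
  set D : ℝ := qr F ^ (δ / (2 * l + 1) * m.natDegree) with hD
  have hDpos : 0 < D := Real.rpow_pos_of_pos hqpos _
  -- the estimate for fixed b0
  have hb0 : ∀ b0 ∈ Fintype.piFinset (fun j => Sml m (y j)),
      ‖∑ b1 ∈ Fintype.piFinset (fun j => Cp m (y j - (b0 j).natDegree)),
        ww m t (∏ j, (b0 j * b1 j))‖ ≤
      2 * qr F ^ t.natDegree * (C1 ^ l * Real.sqrt (qr F) ^ (∑ j, y j) * D ^ l) *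
        ∏ j, ((Real.sqrt (qr F))⁻¹) ^ (b0 j).natDegree := by
    intro b0 hb0
    have h1 := main_b0 hUPS hUCT hORR hPHI hm t (∏ j, b0 j) ht
      (fun j => y j - (b0 j).natDegree)
      (fun j => C1 * Real.sqrt (qr F) ^ (y j - (b0 j).natDegree) * D)
      (fun χ j hχ => hC1b m χ _ hm hχ) (fun j => by positivity)
    have h2 : ∏ j, (C1 * Real.sqrt (qr F) ^ (y j - (b0 j).natDegree) * D) =
        (C1 ^ l * Real.sqrt (qr F) ^ (∑ j, y j) * D ^ l) *
          ∏ j, ((Real.sqrt (qr F))⁻¹) ^ (b0 j).natDegree := by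
      have h3 : ∀ j, C1 * Real.sqrt (qr F) ^ (y j - (b0 j).natDegree) * D =
          (C1 * Real.sqrt (qr F) ^ (y j) * D) * ((Real.sqrt (qr F))⁻¹) ^ (b0 j).natDegree := by
        intro j
        have h4 := sml_deg (Fintype.mem_piFinset.1 hb0 j)
        have h5 : Real.sqrt (qr F) ^ (y j) = Real.sqrt (qr F) ^ (y j - (b0 j).natDegree) *
            Real.sqrt (qr F) ^ (b0 j).natDegree := by
          rw [← pow_add, Nat.sub_add_cancel h4]
        rw [h5, inv_pow]
        field_simp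
      rw [Finset.prod_congr rfl (fun j _ => h3 j), Finset.prod_mul_distrib,
        Finset.prod_mul_distrib, Finset.prod_mul_distrib, Finset.prod_pow_eq_pow_sum]
      simp
    rw [h2] at h1
    have h6 : ∀ b1 : Fin l → F[X], ∏ j, (b0 j * b1 j) = (∏ j, b0 j) * ∏ j, b1 j := by
      intro b1
      rw [Finset.prod_mul_distrib]
    simp only [h6]
    refine h1.trans (le_of_eq ?_)
    ring
  have hsum : ∑ b0 ∈ Fintype.piFinset (fun j => Sml m (y j)),
      ∏ j, ((Real.sqrt (qr F))⁻¹) ^ (b0 j).natDegree ≤ (C2 * D) ^ l := by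
    rw [← Finset.prod_univ_sum (fun j => Sml m (y j))
      (fun _ f => ((Real.sqrt (qr F))⁻¹) ^ f.natDegree)]
    calc ∏ j, ∑ f ∈ Sml m (y j), ((Real.sqrt (qr F))⁻¹) ^ f.natDegree
        ≤ ∏ _j : Fin l, (C2 * D) := by
          refine Finset.prod_le_prod (fun j _ => Finset.sum_nonneg fun f _ => by positivity)
            fun j _ => ?_
          rw [sml_sum hDKR]
          exact hC2b m (y j) hm
      _ = (C2 * D) ^ l := by
          rw [Finset.prod_const, Finset.card_univ, Fintype.card_fin]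
  have habs : |(AP y m t : ℝ) - AV y m t| = ‖(((AP y m t : ℝ) - AV y m t : ℝ) : ℂ)‖ := by
    rw [Complex.norm_real, Real.norm_eq_abs]
  rw [habs, AP_AV, hSPT F l y m (fun b => ww m t (∏ j, b j)) hm]
  have hDD : D ^ l * D ^ l ≤ qr F ^ (δ * m.natDegree) := by
    rw [hD, ← pow_add, ← Real.rpow_natCast, ← Real.rpow_mul hqpos.le]
    refine Real.rpow_le_rpow_of_exponent_le hq1 ?_
    have h7 : δ / (2 * l + 1) * m.natDegree * ((l + l : ℕ) : ℝ) =
        δ * m.natDegree * ((2 * l) / (2 * l + 1)) := by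
      push_cast
      field_simp
      ring
    rw [h7]
    have h8 : (2 * (l : ℝ)) / (2 * l + 1) ≤ 1 := by
      rw [div_le_one (by positivity)]
      linarith
    have h9 : 0 ≤ δ * m.natDegree := by positivity
    exact mul_le_of_le_one_right h9 h8
  calc ‖∑ b0 ∈ Fintype.piFinset (fun j => Sml m (y j)),
        ∑ b1 ∈ Fintype.piFinset (fun j => Cp m (y j - (b0 j).natDegree)),
          ww m t (∏ j, (b0 j * b1 j))‖
      ≤ ∑ b0 ∈ Fintype.piFinset (fun j => Sml m (y j)),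
        ‖∑ b1 ∈ Fintype.piFinset (fun j => Cp m (y j - (b0 j).natDegree)),
          ww m t (∏ j, (b0 j * b1 j))‖ := norm_sum_le _ _
    _ ≤ ∑ b0 ∈ Fintype.piFinset (fun j => Sml m (y j)),
        2 * qr F ^ t.natDegree * (C1 ^ l * Real.sqrt (qr F) ^ (∑ j, y j) * D ^ l) *
        ∏ j, ((Real.sqrt (qr F))⁻¹) ^ (b0 j).natDegree := Finset.sum_le_sum hb0
    _ = 2 * qr F ^ t.natDegree * (C1 ^ l * Real.sqrt (qr F) ^ (∑ j, y j) * D ^ l) *
        ∑ b0 ∈ Fintype.piFinset (fun j => Sml m (y j)),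
          ∏ j, ((Real.sqrt (qr F))⁻¹) ^ (b0 j).natDegree := by rw [Finset.mul_sum]
    _ ≤ 2 * qr F ^ t.natDegree * (C1 ^ l * Real.sqrt (qr F) ^ (∑ j, y j) * D ^ l) *
        (C2 * D) ^ l := mul_le_mul_of_nonneg_left hsum (by positivity)
    _ = 2 * (C1 ^ l * C2 ^ l) * qr F ^ t.natDegree * Real.sqrt (qr F) ^ (∑ j, y j) *
        (D ^ l * D ^ l) := by
        rw [mul_pow]
        ring
    _ ≤ 2 * (C1 ^ l * C2 ^ l) * qr F ^ t.natDegree * Real.sqrt (qr F) ^ (∑ j, y j) *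
        qr F ^ (δ * m.natDegree) := mul_le_mul_of_nonneg_left hDD (by positivity)

end Pool.Agent.Helper45.EP
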