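import Pool.Agent.Helper61.EP.StL

/-!
# Project EP (MP_cb927e_an), module LCB: combinatorics at a point
-/

set_option autoImplicit false

open MeasureTheory Set Filter Topology
open scoped ENNReal RealInnerProductSpace

namespace Pool.Agent.Helper45.EPL

open Pool.Agent.Helper61.EPL Pool.Agent.Helper20.RG Pool.Agent.Helper68.EP
open Pool.Agent.Helper20.RL (RQ Rich BM Fml Hit)
open Pool.Agent.Helper61.EP (trS Ex2 Yc Zc Ec am cutf)
open Pool.Agent.Helper68.LM (Pl BB Bd Av HL ft fm DQ)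

theorem bb_ind {F : Set Pl} (hF : BM F) : BB (F.indicator 1) := by
  obtain ⟨hm, hb⟩ := hF
  obtain ⟨R, hR⟩ := hb.exists_norm_le
  refine ⟨measurable_one.indicator hm, max 1 R, ?_, ?_⟩
  · intro x
    by_cases hx : x ∈ F
    · rw [Set.indicator_of_mem hx]; simp
    · rw [Set.indicator_of_notMem hx]; simp
  · intro x hx
    apply Set.indicator_of_notMem
    intro h
    have h1 := hR x h
    have h2 := (le_max_right 1 R).trans_lt hx
    linarith

theorem bm_gf {f : Pl → ℝ} (hf : BB f) (m : ℤ) : BM (Gf f m) := by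
  obtain ⟨hm, K, hK, hK2⟩ := hf
  constructor
  · have h : Gf f m = f ⁻¹' (Ico ((2 : ℝ) ^ m) ((2 : ℝ) ^ (m + 1))) := by
      ext x; simp [Gf, mem_Ico]
    rw [h]; exact hm measurableSet_Ico
  · rw [isBounded_iff_forall_norm_le]
    refine ⟨K, ?_⟩
    intro x hx
    by_contra hc
    have h0 := hK2 x (not_le.1 hc)
    have h1 := hx.1
    rw [h0] at h1
    exact absurd h1 (not_le.2 (zpow_pos (by norm_num) m))

theorem bm_diff {E F : Set Pl} (hE : BM E) (hF : BM F) : BM (E \ F) :=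
  ⟨hE.1.diff hF.1, hE.2.subset Set.sdiff_subset⟩

theorem hLCB (hYB : Pool.Agent.Helper20.RG.StYB) (hEFB : Pool.Agent.Helper68.EP.StEFB) :
    Pool.Agent.Helper61.EPL.StLCB := by
  intro ε₃ hε
  have h2 : (0 : ℝ) < 2 := by norm_num
  set q : ℝ := (2 : ℝ) ^ (-ε₃) with hq
  have hq0 : 0 < q := Real.rpow_pos_of_pos h2 _
  have hq1 : q < 1 := Real.rpow_lt_one_of_one_lt_of_neg (by norm_num) (by linarith)
  obtain ⟨u₁, hu₁⟩ := exists_pow_lt_of_lt_one (show 0 < (1 - q) / 30 by
    have : 0 < 1 - q := by linarith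
    positivity) hq1
  refine ⟨u₁, ?_⟩
  intro φ τ P c U₀ V k l f x hG hU hBB hf0 hA hB hC
  have hqu : ∀ u : ℕ, (2 : ℝ) ^ (-(ε₃ * (u : ℝ))) = q ^ u := by
    intro u
    rw [hq, ← Real.rpow_natCast, ← Real.rpow_mul h2.le]; congr 1; ring
  -- one class
  have hone : ∀ u : ℕ, U₀ ≤ u →
      (∑ j ∈ Finset.range (2 ^ u), Yc c φ τ u k ((Gf f (l + (u : ℤ))).indicator 1) x j ≤
        3 * q ^ u + 2 * ∑ j ∈ Finset.range (2 ^ u),
          tt P (dat τ) (ce c φ) (P.g / 8) u j k (Gf f (l + (u : ℤ))) x) ∧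
      0 ≤ ∑ j ∈ Finset.range (2 ^ u),
          tt P (dat τ) (ce c φ) (P.g / 8) u j k (Gf f (l + (u : ℤ))) x := by
    intro u hu
    have hE : BM (Gf f (l + (u : ℤ))) := bm_gf hBB _
    have hF : BM (Fo P u k (q0 P u) (Gf f (l + (u : ℤ)))) := (hEFB.1 _ _ _).2.2 hE
    have hsub : Fo P u k (q0 P u) (Gf f (l + (u : ℤ))) ⊆ Gf f (l + (u : ℤ)) := (hEFB.1 _ _ _).1
    set E : Set Pl := Gf f (l + (u : ℤ)) with hEdef
    set F : Set Pl := Fo P u k (q0 P u) E with hFdef
    have hD : BM (E \ F) := bm_diff hE hF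
    have hl : (0 : ℝ) < 1 / (2 : ℝ) ^ u := by positivity
    have hs : ∀ j : ℕ, |τ (tm u j)| ≤ 1 := fun j => hG.1 _
    have hsum : ∀ j : ℕ, Yc c φ τ u k (E.indicator 1) x j =
        Yc c φ τ u k (F.indicator 1) x j + Yc c φ τ u k ((E \ F).indicator 1) x j := by
      intro j
      have h3 := (hYB (τ (tm u j)) (ce c φ u j) (mm τ u j) (1 / (2 : ℝ) ^ u) k (F.indicator 1)
        (hs j) hl (bb_ind hF)).2.2.2.2 1 ((E \ F).indicator 1) (bb_ind hD) x
      have h4 : (fun y => 1 * F.indicator (1 : Pl → ℝ) y + (E \ F).indicator (1 : Pl → ℝ) y) =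
          E.indicator 1 := by
        funext y
        by_cases h5 : y ∈ F
        · rw [Set.indicator_of_mem h5, Set.indicator_of_mem (hsub h5),
            Set.indicator_of_notMem (by simp [h5])]
          simp
        · by_cases h6 : y ∈ E
          · rw [Set.indicator_of_notMem h5, Set.indicator_of_mem h6,
              Set.indicator_of_mem (by exact ⟨h6, h5⟩)]
            simp
          · rw [Set.indicator_of_notMem h5, Set.indicator_of_notMem h6,
              Set.indicator_of_notMem (by simp [h6])]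
            simp
      rw [h4, one_mul] at h3
      exact h3
    have hF0 : ∀ j : ℕ, 0 ≤ Yc c φ τ u k (F.indicator 1) x j := by
      intro j
      exact (hYB (τ (tm u j)) (ce c φ u j) (mm τ u j) (1 / (2 : ℝ) ^ u) k (F.indicator 1)
        (hs j) hl (bb_ind hF)).2.2.1 (fun y => Set.indicator_nonneg (by intro _ _; simp) y) x
    have hD0 : ∀ j : ℕ, 0 ≤ Yc c φ τ u k ((E \ F).indicator 1) x j := by
      intro j
      exact (hYB (τ (tm u j)) (ce c φ u j) (mm τ u j) (1 / (2 : ℝ) ^ u) k ((E \ F).indicator 1)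
        (hs j) hl (bb_ind hD)).2.2.1 (fun y => Set.indicator_nonneg (by intro _ _; simp) y) x
    have htt : ∀ j : ℕ, tt P (dat τ) (ce c φ) (P.g / 8) u j k E x =
        if (2 : ℝ) ^ (-(P.g / 8 * u)) / 2 ≤ Yc c φ τ u k (F.indicator 1) x j then
          Yc c φ τ u k (F.indicator 1) x j else 0 := by
      intro j
      rfl
    have htt0 : ∀ j : ℕ, 0 ≤ tt P (dat τ) (ce c φ) (P.g / 8) u j k E x := by
      intro j
      rw [htt j]
      split_ifs
      · exact hF0 j
      · exact le_refl _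
    have hpt : ∀ j : ℕ, Yc c φ τ u k (E.indicator 1) x j ≤
        (if Yc c φ τ u k (E.indicator 1) x j < (2 : ℝ) ^ (-(P.g / 8 * u)) then
          Yc c φ τ u k (E.indicator 1) x j else 0) +
        2 * tt P (dat τ) (ce c φ) (P.g / 8) u j k E x +
        2 * Yc c φ τ u k ((E \ F).indicator 1) x j := by
      intro j
      have a1 := hF0 j
      have a2 := hD0 j
      have a3 := htt0 j
      have a4 := hsum j
      by_cases h7 : Yc c φ τ u k (E.indicator 1) x j < (2 : ℝ) ^ (-(P.g / 8 * u))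
      · rw [if_pos h7]; linarith
      · rw [if_neg h7]
        by_cases h8 : Yc c φ τ u k (E.indicator 1) x j / 2 ≤ Yc c φ τ u k (F.indicator 1) x j
        · have h9 : tt P (dat τ) (ce c φ) (P.g / 8) u j k E x = Yc c φ τ u k (F.indicator 1) x j := by
            rw [htt j, if_pos (by linarith)]
          rw [h9]; linarith
        · linarith
    constructor
    · have h10 := hA u hu
      have h11 := hB u hu
      rw [hqu u] at h10 h11
      unfold Pool.Agent.Helper61.EP.trS at h10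
      have h12 := Finset.sum_le_sum (fun j (_ : j ∈ Finset.range (2 ^ u)) => hpt j)
      rw [Finset.sum_add_distrib, Finset.sum_add_distrib, ← Finset.mul_sum, ← Finset.mul_sum] at h12
      linarith
    · exact Finset.sum_nonneg (fun j _ => htt0 j)
  have h20 : ∑ u ∈ Finset.Ico U₀ V, ∑ j ∈ Finset.range (2 ^ u),
      Yc c φ τ u k ((Gf f (l + (u : ℤ))).indicator 1) x j ≤
      ∑ u ∈ Finset.Ico U₀ V, (3 * q ^ u + 2 * ∑ j ∈ Finset.range (2 ^ u),
          tt P (dat τ) (ce c φ) (P.g / 8) u j k (Gf f (l + (u : ℤ))) x) :=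
    Finset.sum_le_sum (fun u hu => (hone u (Finset.mem_Ico.1 hu).1).1)
  rw [Finset.sum_add_distrib, ← Finset.mul_sum, ← Finset.mul_sum] at h20
  have h21 : ∑ u ∈ Finset.Ico U₀ V, q ^ u ≤ q ^ U₀ / (1 - q) :=
    geom_sum_Ico_le_of_lt_one hq0.le hq1
  have h22 : q ^ U₀ ≤ q ^ u₁ := pow_le_pow_of_le_one hq0.le hq1.le hU
  have h23 : q ^ U₀ / (1 - q) ≤ 1 / 30 := by
    rw [div_le_iff₀ (by linarith)]; linarith
  have h24 : ∑ u ∈ Finset.Ico U₀ V, ∑ j ∈ Finset.range (2 ^ u),
      tt P (dat τ) (ce c φ) (P.g / 8) u j k (Gf f (l + (u : ℤ))) x ≤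
      ∑ u ∈ Finset.Icc U₀ V, ∑ j ∈ Finset.range (2 ^ u),
      tt P (dat τ) (ce c φ) (P.g / 8) u j k (Gf f (l + (u : ℤ))) x := by
    apply Finset.sum_le_sum_of_subset_of_nonneg
    · exact Finset.Ico_subset_Icc_self
    · intro u hu _
      exact (hone u (Finset.mem_Icc.1 hu).1).2
  linarith

end Pool.Agent.Helper45.EPL
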