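import Pool.Agent.Helper61.EP.StL

/-!
# Project EP (MP_cb927e_an), module LSQ: sums over levels
-/

set_option autoImplicit false

open MeasureTheory Set Filter Topology
open scoped ENNReal RealInnerProductSpace

namespace Pool.Agent.Helper45.EPL

open Pool.Agent.Helper61.EPL Pool.Agent.Helper20.RG Pool.Agent.Helper68.EP
open Pool.Agent.Helper20.RL (RQ Rich BM Fml Hit)
open Pool.Agent.Helper61.EP (trS Ex2 Yc Zc Ec am cutf)
open Pool.Agent.Helper68.LM (Pl BB Bd Av HL ft fm DQ)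

theorem gf_meas (f : Pl → ℝ) (hf : Measurable f) (l : ℤ) : MeasurableSet (Gf f l) := by
  have h : Gf f l = f ⁻¹' (Ico ((2 : ℝ) ^ l) ((2 : ℝ) ^ (l + 1))) := by
    ext x; simp [Gf, mem_Ico]
  rw [h]; exact hf measurableSet_Ico

theorem cs_meas (f : Pl → ℝ) (hf : Measurable f) (l : ℤ) (u : ℕ) :
    MeasurableSet {x | (2 : ℝ) ^ l ≤ f x ∧ f x < (2 : ℝ) ^ (l + (u : ℤ))} := by
  have h : {x | (2 : ℝ) ^ l ≤ f x ∧ f x < (2 : ℝ) ^ (l + (u : ℤ))} =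
      f ⁻¹' (Ico ((2 : ℝ) ^ l) ((2 : ℝ) ^ (l + (u : ℤ)))) := by
    ext x; simp [mem_Ico]
  rw [h]; exact hf measurableSet_Ico

theorem lev_unique {a : ℝ} {m h : ℤ} (hm : (2 : ℝ) ^ m ≤ a ∧ a < (2 : ℝ) ^ (m + 1))
    (hh : (2 : ℝ) ^ h ≤ a ∧ a < (2 : ℝ) ^ (h + 1)) : h = m := by
  have h1 : (2 : ℝ) ^ m < (2 : ℝ) ^ (h + 1) := lt_of_le_of_lt hm.1 hh.2
  have h2 : (2 : ℝ) ^ h < (2 : ℝ) ^ (m + 1) := lt_of_le_of_lt hh.1 hm.2
  have h1' := (zpow_lt_zpow_iff_right₀ (by norm_num : (1 : ℝ) < 2)).1 h1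
  have h2' := (zpow_lt_zpow_iff_right₀ (by norm_num : (1 : ℝ) < 2)).1 h2
  omega

theorem lev_exists {a : ℝ} (ha : 0 < a) : ∃ m : ℤ, (2 : ℝ) ^ m ≤ a ∧ a < (2 : ℝ) ^ (m + 1) := by
  obtain ⟨m, hm⟩ := exists_mem_Ico_zpow ha (by norm_num : (1 : ℝ) < 2)
  exact ⟨m, hm.1, hm.2⟩

/-- the numerical inequality -/
theorem num1 {p a : ℝ} (hp : p < 2) (ha : 0 < a) {m : ℤ} (hm : a < (2 : ℝ) ^ (m + 1)) (i : ℕ) :
    (2 : ℝ) ^ ((p - 2) * ((m - (i : ℤ) : ℤ) : ℝ)) * a ^ 2 ≤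
      (2 : ℝ) ^ (2 - p) * ((2 : ℝ) ^ (2 - p)) ^ i * a ^ p := by
  have h2 : (0 : ℝ) < 2 := by norm_num
  have e1 : a ^ 2 = a ^ p * a ^ (2 - p) := by
    rw [← Real.rpow_add ha, ← Real.rpow_natCast]; congr 1; push_cast; ring
  have e2 : a ^ (2 - p) ≤ (2 : ℝ) ^ ((2 - p) * ((m : ℝ) + 1)) := by
    have h3 : a ^ (2 - p) ≤ ((2 : ℝ) ^ (m + 1)) ^ (2 - p) :=
      Real.rpow_le_rpow ha.le hm.le (by linarith)
    have h4 : ((2 : ℝ) ^ (m + 1)) ^ (2 - p) = (2 : ℝ) ^ ((2 - p) * ((m : ℝ) + 1)) := by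
      rw [← Real.rpow_intCast, ← Real.rpow_mul h2.le]; congr 1; push_cast; ring
    rw [h4] at h3; exact h3
  have e3 : (2 : ℝ) ^ (2 - p) * ((2 : ℝ) ^ (2 - p)) ^ i =
      (2 : ℝ) ^ ((p - 2) * ((m - (i : ℤ) : ℤ) : ℝ)) * (2 : ℝ) ^ ((2 - p) * ((m : ℝ) + 1)) := by
    rw [← Real.rpow_natCast, ← Real.rpow_mul h2.le, ← Real.rpow_add h2, ← Real.rpow_add h2]
    congr 1; push_cast; ring
  rw [e1, e3]
  have h5 : 0 < (2 : ℝ) ^ ((p - 2) * ((m - (i : ℤ) : ℤ) : ℝ)) := Real.rpow_pos_of_pos h2 _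
  have h6 : 0 < a ^ p := Real.rpow_pos_of_pos ha _
  calc (2 : ℝ) ^ ((p - 2) * ((m - (i : ℤ) : ℤ) : ℝ)) * (a ^ p * a ^ (2 - p))
      ≤ (2 : ℝ) ^ ((p - 2) * ((m - (i : ℤ) : ℤ) : ℝ)) * (a ^ p * (2 : ℝ) ^ ((2 - p) * ((m : ℝ) + 1))) := by
        gcongr
    _ = _ := by ring

theorem cutf_of_zero {f : Pl → ℝ} {x : Pl} (h : f x = 0) (l : ℤ) (u : ℕ) : cutf f l u x = 0 := by
  unfold Pool.Agent.Helper61.EP.cutf
  by_cases hx : x ∈ {x | (2 : ℝ) ^ l ≤ f x ∧ f x < (2 : ℝ) ^ (l + (u : ℤ))}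
  · rw [Set.indicator_of_mem hx, h]
  · rw [Set.indicator_of_notMem hx]

/-- the pointwise inequality of the second clause -/
theorem pw2 {p : ℝ} (hp : p < 2) (f : Pl → ℝ) (hf : ∀ x, 0 ≤ f x) (u : ℕ) (x : Pl) :
    ∑' l : ℤ, ENNReal.ofReal ((2 : ℝ) ^ ((p - 2) * (l : ℝ))) * ‖cutf f l u x‖ₑ ^ 2 ≤
      ENNReal.ofReal (((2 : ℝ) ^ (2 - p) / ((2 : ℝ) ^ (2 - p) - 1)) * (2 : ℝ) ^ ((2 - p) * (u : ℝ))) *
        ENNReal.ofReal (f x) ^ p := by
  classical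
  rcases (hf x).eq_or_lt with h0 | h0
  · have h1 : ∀ l : ℤ, ENNReal.ofReal ((2 : ℝ) ^ ((p - 2) * (l : ℝ))) * ‖cutf f l u x‖ₑ ^ 2 = 0 := by
      intro l
      rw [cutf_of_zero h0.symm]; simp
    rw [tsum_congr h1, tsum_zero]; exact zero_le
  · obtain ⟨m, hm1, hm2⟩ := lev_exists h0
    have hr : 1 < (2 : ℝ) ^ (2 - p) := Real.one_lt_rpow (by norm_num) (by linarith)
    set r : ℝ := (2 : ℝ) ^ (2 - p) with hrdef
    have hz : ∀ l : ℤ, l ∉ (Finset.range u).image (fun i : ℕ => m - (i : ℤ)) →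
        ENNReal.ofReal ((2 : ℝ) ^ ((p - 2) * (l : ℝ))) * ‖cutf f l u x‖ₑ ^ 2 = 0 := by
      intro l hl
      have h2 : cutf f l u x = 0 := by
        unfold Pool.Agent.Helper61.EP.cutf
        apply Set.indicator_of_notMem
        rintro ⟨h3, h4⟩
        have h5 : l < m + 1 :=
          (zpow_lt_zpow_iff_right₀ (by norm_num : (1 : ℝ) < 2)).1 (lt_of_le_of_lt h3 hm2)
        have h6 : m < l + (u : ℤ) :=
          (zpow_lt_zpow_iff_right₀ (by norm_num : (1 : ℝ) < 2)).1 (lt_of_le_of_lt hm1 h4)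
        apply hl
        rw [Finset.mem_image]
        refine ⟨(m - l).toNat, ?_, ?_⟩
        · rw [Finset.mem_range]; omega
        · omega
      rw [h2]; simp
    rw [tsum_eq_sum hz, Finset.sum_image (by
      intro i _ j _ hij
      dsimp only at hij
      omega)]
    have hb : ∀ i ∈ Finset.range u,
        ENNReal.ofReal ((2 : ℝ) ^ ((p - 2) * ((m - (i : ℤ) : ℤ) : ℝ))) *
          ‖cutf f (m - (i : ℤ)) u x‖ₑ ^ 2 ≤ ENNReal.ofReal (r * r ^ i * (f x) ^ p) := by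
      intro i _
      have h7 : ‖cutf f (m - (i : ℤ)) u x‖ₑ ^ 2 ≤ ENNReal.ofReal ((f x) ^ 2) := by
        have h8 : ‖cutf f (m - (i : ℤ)) u x‖ₑ ≤ ENNReal.ofReal (f x) := by
          unfold Pool.Agent.Helper61.EP.cutf
          by_cases hx : x ∈ {x | (2 : ℝ) ^ (m - (i : ℤ)) ≤ f x ∧ f x < (2 : ℝ) ^ (m - (i : ℤ) + (u : ℤ))}
          · rw [Set.indicator_of_mem hx, Real.enorm_eq_ofReal h0.le]
          · rw [Set.indicator_of_notMem hx]; simp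
        calc ‖cutf f (m - (i : ℤ)) u x‖ₑ ^ 2 ≤ ENNReal.ofReal (f x) ^ 2 := by gcongr
          _ = ENNReal.ofReal ((f x) ^ 2) := by rw [ENNReal.ofReal_pow h0.le]
      calc ENNReal.ofReal ((2 : ℝ) ^ ((p - 2) * ((m - (i : ℤ) : ℤ) : ℝ))) *
          ‖cutf f (m - (i : ℤ)) u x‖ₑ ^ 2
          ≤ ENNReal.ofReal ((2 : ℝ) ^ ((p - 2) * ((m - (i : ℤ) : ℤ) : ℝ))) *
            ENNReal.ofReal ((f x) ^ 2) := by gcongr
        _ = ENNReal.ofReal ((2 : ℝ) ^ ((p - 2) * ((m - (i : ℤ) : ℤ) : ℝ)) * (f x) ^ 2) := by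
            rw [ENNReal.ofReal_mul (by positivity)]
        _ ≤ ENNReal.ofReal (r * r ^ i * (f x) ^ p) :=
            ENNReal.ofReal_le_ofReal (num1 hp h0 hm2 i)
    refine (Finset.sum_le_sum hb).trans ?_
    rw [← ENNReal.ofReal_sum_of_nonneg (by intro i _; positivity)]
    have h9 : ENNReal.ofReal (f x) ^ p = ENNReal.ofReal ((f x) ^ p) :=
      ENNReal.ofReal_rpow_of_pos h0
    rw [h9, ← ENNReal.ofReal_mul (by
      have : 0 < r - 1 := by linarith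
      positivity)]
    apply ENNReal.ofReal_le_ofReal
    have h10 : ∑ i ∈ Finset.range u, r * r ^ i * (f x) ^ p =
        (r * (f x) ^ p) * ∑ i ∈ Finset.range u, r ^ i := by
      rw [Finset.mul_sum]; apply Finset.sum_congr rfl; intro i _; ring
    rw [h10, geom_sum_eq hr.ne']
    have h11 : (2 : ℝ) ^ ((2 - p) * (u : ℝ)) = r ^ u := by
      rw [hrdef, ← Real.rpow_natCast, ← Real.rpow_mul (by norm_num)]
    rw [h11]
    have h12 : 0 < r - 1 := by linarith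
    have h13 : 0 < (f x) ^ p := Real.rpow_pos_of_pos h0 _
    have h14 : (r ^ u - 1) / (r - 1) ≤ r ^ u / (r - 1) := by
      apply div_le_div_of_nonneg_right _ h12.le; linarith
    calc r * (f x) ^ p * ((r ^ u - 1) / (r - 1)) ≤ r * (f x) ^ p * (r ^ u / (r - 1)) := by
          gcongr
      _ = r / (r - 1) * r ^ u * (f x) ^ p := by ring

theorem cutf_meas (f : Pl → ℝ) (hf : Measurable f) (l : ℤ) (u : ℕ) : Measurable (cutf f l u) := by
  unfold Pool.Agent.Helper61.EP.cutf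
  exact hf.indicator (cs_meas f hf l u)

/-- second clause -/
theorem cl2 {p : ℝ} (hp : p < 2) (f : Pl → ℝ) (hfm : Measurable f) (hf : ∀ x, 0 ≤ f x) (u : ℕ) :
    ∑' l : ℤ, ENNReal.ofReal ((2 : ℝ) ^ ((p - 2) * (l : ℝ))) * ∫⁻ x, ‖cutf f l u x‖ₑ ^ 2 ≤
      ENNReal.ofReal (((2 : ℝ) ^ (2 - p) / ((2 : ℝ) ^ (2 - p) - 1)) * (2 : ℝ) ^ ((2 - p) * (u : ℝ))) *
        ∫⁻ x, ENNReal.ofReal (f x) ^ p := by
  have hm : ∀ l : ℤ, Measurable (fun x => ‖cutf f l u x‖ₑ ^ 2) := fun l =>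
    ((cutf_meas f hfm l u).enorm).pow_const 2
  calc ∑' l : ℤ, ENNReal.ofReal ((2 : ℝ) ^ ((p - 2) * (l : ℝ))) * ∫⁻ x, ‖cutf f l u x‖ₑ ^ 2
      = ∑' l : ℤ, ∫⁻ x, ENNReal.ofReal ((2 : ℝ) ^ ((p - 2) * (l : ℝ))) * ‖cutf f l u x‖ₑ ^ 2 := by
        apply tsum_congr; intro l
        rw [lintegral_const_mul _ (hm l)]
    _ = ∫⁻ x, ∑' l : ℤ, ENNReal.ofReal ((2 : ℝ) ^ ((p - 2) * (l : ℝ))) * ‖cutf f l u x‖ₑ ^ 2 := by
        rw [lintegral_tsum]
        intro l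
        exact ((hm l).const_mul _).aemeasurable
    _ ≤ ∫⁻ x, ENNReal.ofReal (((2 : ℝ) ^ (2 - p) / ((2 : ℝ) ^ (2 - p) - 1)) *
        (2 : ℝ) ^ ((2 - p) * (u : ℝ))) * ENNReal.ofReal (f x) ^ p :=
        lintegral_mono (pw2 hp f hf u)
    _ = _ := by
        rw [lintegral_const_mul]
        exact (hfm.ennreal_ofReal).pow_const p

/-- third clause -/
theorem cl3 {p : ℝ} (hp : 1 < p) (f : Pl → ℝ) (hfm : Measurable f) (hf : ∀ x, 0 ≤ f x) :
    ∑' m : ℤ, ENNReal.ofReal ((2 : ℝ) ^ (p * (m : ℝ))) * volume (Gf f m) ≤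
      ∫⁻ x, ENNReal.ofReal (f x) ^ p := by
  calc ∑' m : ℤ, ENNReal.ofReal ((2 : ℝ) ^ (p * (m : ℝ))) * volume (Gf f m)
      = ∑' m : ℤ, ∫⁻ x, (Gf f m).indicator (fun _ => ENNReal.ofReal ((2 : ℝ) ^ (p * (m : ℝ)))) x := by
        apply tsum_congr; intro m
        rw [lintegral_indicator_const (gf_meas f hfm m)]
    _ = ∫⁻ x, ∑' m : ℤ, (Gf f m).indicator (fun _ => ENNReal.ofReal ((2 : ℝ) ^ (p * (m : ℝ)))) x := by
        rw [lintegral_tsum]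
        intro m
        exact (measurable_const.indicator (gf_meas f hfm m)).aemeasurable
    _ ≤ ∫⁻ x, ENNReal.ofReal (f x) ^ p := by
        apply lintegral_mono
        intro x
        dsimp only
        rcases (hf x).eq_or_lt with h0 | h0
        · have h1 : ∀ m : ℤ, (Gf f m).indicator
              (fun _ => ENNReal.ofReal ((2 : ℝ) ^ (p * (m : ℝ)))) x = 0 := by
            intro m
            apply Set.indicator_of_notMem
            rintro ⟨h2, _⟩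
            rw [← h0] at h2
            exact absurd h2 (not_le.2 (zpow_pos (by norm_num) m))
          rw [tsum_congr h1, tsum_zero]; exact zero_le
        · obtain ⟨m, hm1, hm2⟩ := lev_exists h0
          rw [tsum_eq_single m (by
            intro h hne
            apply Set.indicator_of_notMem
            intro hh
            exact hne (lev_unique ⟨hm1, hm2⟩ hh))]
          refine (Set.indicator_le_self' (by intro _ _; exact zero_le) x).trans ?_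
          rw [ENNReal.ofReal_rpow_of_pos h0]
          apply ENNReal.ofReal_le_ofReal
          have h3 : (2 : ℝ) ^ (p * (m : ℝ)) = ((2 : ℝ) ^ m) ^ p := by
            rw [← Real.rpow_intCast, ← Real.rpow_mul (by norm_num)]; congr 1; ring
          rw [h3]
          exact Real.rpow_le_rpow (by positivity) hm1 (by linarith)

/-- fourth clause -/
theorem cl4 {p : ℝ} (hp : 1 < p) (f : Pl → ℝ) (hfm : Measurable f) (hf : ∀ x, 0 ≤ f x)
    (ε : ℝ) (hε : 0 < ε) :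
    ∑' l : ℤ, ENNReal.ofReal ((2 : ℝ) ^ (p * (l : ℝ))) *
      ∑' v : ℕ, ENNReal.ofReal ((2 : ℝ) ^ ((p - ε) * (v : ℝ))) * volume (Gf f (l + (v : ℤ))) ≤
      ENNReal.ofReal (1 / (1 - (2 : ℝ) ^ (-ε))) * ∫⁻ x, ENNReal.ofReal (f x) ^ p := by
  have h2 : (0 : ℝ) < 2 := by norm_num
  have hq : (2 : ℝ) ^ (-ε) < 1 := Real.rpow_lt_one_of_one_lt_of_neg (by norm_num) (by linarith)
  have hq0 : 0 < (2 : ℝ) ^ (-ε) := Real.rpow_pos_of_pos h2 _
  calc ∑' l : ℤ, ENNReal.ofReal ((2 : ℝ) ^ (p * (l : ℝ))) *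
      ∑' v : ℕ, ENNReal.ofReal ((2 : ℝ) ^ ((p - ε) * (v : ℝ))) * volume (Gf f (l + (v : ℤ)))
      = ∑' l : ℤ, ∑' v : ℕ, ENNReal.ofReal ((2 : ℝ) ^ (-ε)) ^ v *
          (ENNReal.ofReal ((2 : ℝ) ^ (p * ((l + (v : ℤ) : ℤ) : ℝ))) * volume (Gf f (l + (v : ℤ)))) := by
        apply tsum_congr; intro l
        rw [← ENNReal.tsum_mul_left]
        apply tsum_congr; intro v
        rw [← mul_assoc, ← mul_assoc, ← ENNReal.ofReal_mul (by positivity),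
          ← ENNReal.ofReal_pow (by positivity), ← ENNReal.ofReal_mul (by positivity)]
        congr 2
        rw [← Real.rpow_natCast, ← Real.rpow_mul h2.le, ← Real.rpow_add h2, ← Real.rpow_add h2]
        congr 1; push_cast; ring
    _ = ∑' v : ℕ, ∑' l : ℤ, ENNReal.ofReal ((2 : ℝ) ^ (-ε)) ^ v *
          (ENNReal.ofReal ((2 : ℝ) ^ (p * ((l + (v : ℤ) : ℤ) : ℝ))) * volume (Gf f (l + (v : ℤ)))) :=
        ENNReal.tsum_comm
    _ = ∑' v : ℕ, ENNReal.ofReal ((2 : ℝ) ^ (-ε)) ^ v *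
          ∑' m : ℤ, ENNReal.ofReal ((2 : ℝ) ^ (p * (m : ℝ))) * volume (Gf f m) := by
        apply tsum_congr; intro v
        rw [ENNReal.tsum_mul_left]
        congr 1
        exact (Equiv.addRight (v : ℤ)).tsum_eq
          (fun m : ℤ => ENNReal.ofReal ((2 : ℝ) ^ (p * (m : ℝ))) * volume (Gf f m))
    _ = (∑' v : ℕ, ENNReal.ofReal ((2 : ℝ) ^ (-ε)) ^ v) *
          ∑' m : ℤ, ENNReal.ofReal ((2 : ℝ) ^ (p * (m : ℝ))) * volume (Gf f m) :=
        ENNReal.tsum_mul_right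
    _ ≤ ENNReal.ofReal (1 / (1 - (2 : ℝ) ^ (-ε))) * ∫⁻ x, ENNReal.ofReal (f x) ^ p := by
        rw [ENNReal.tsum_geometric]
        have h3 : (1 - ENNReal.ofReal ((2 : ℝ) ^ (-ε)))⁻¹ = ENNReal.ofReal (1 / (1 - (2 : ℝ) ^ (-ε))) := by
          rw [one_div, ENNReal.ofReal_inv_of_pos (by linarith), ENNReal.ofReal_sub _ hq0.le,
            ENNReal.ofReal_one]
        rw [h3]
        gcongr
        exact cl3 hp f hfm hf

theorem hLSQ : Pool.Agent.Helper61.EPL.StLSQ := by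
  intro p hp1 hp2
  have hr : 1 < (2 : ℝ) ^ (2 - p) := Real.one_lt_rpow (by norm_num) (by linarith)
  have hr2 : (2 : ℝ) ^ (2 - p) ≤ 2 := by
    calc (2 : ℝ) ^ (2 - p) ≤ (2 : ℝ) ^ (1 : ℝ) :=
          Real.rpow_le_rpow_of_exponent_le (by norm_num) (by linarith)
      _ = 2 := by norm_num
  set r : ℝ := (2 : ℝ) ^ (2 - p) with hrdef
  have h0 : 0 < r - 1 := by linarith
  have h1 : 1 ≤ r / (r - 1) := by
    rw [le_div_iff₀ h0]; linarith
  refine ⟨2 * (r / (r - 1)), by linarith, ?_⟩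
  intro f hfm hf
  refine ⟨?_, ?_, cl3 hp1 f hfm hf, fun ε hε => cl4 hp1 f hfm hf ε hε⟩
  · have h2 := cl2 hp2 f hfm hf 1
    have h3 : ∀ h : ℤ, cutf f h 1 = (Gf f h).indicator f := by
      intro h
      unfold Pool.Agent.Helper61.EP.cutf Pool.Agent.Helper68.EP.Gf
      simp
    simp only [h3] at h2
    refine h2.trans ?_
    refine mul_le_mul' (ENNReal.ofReal_le_ofReal ?_) le_rfl
    rw [← hrdef]
    have h4 : (2 : ℝ) ^ ((2 - p) * ((1 : ℕ) : ℝ)) = r := by rw [hrdef]; simp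
    rw [h4]
    nlinarith
  · intro u
    refine (cl2 hp2 f hfm hf u).trans ?_
    gcongr
    rw [← hrdef]
    have h5 : 0 < r / (r - 1) := by linarith
    linarith

end Pool.Agent.Helper45.EPL
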